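import Mathlib
import Pool.Agent.H.MP_235f01_an.A

open Set Filter Topology

namespace Pool.Agent.Results.MP_235f01_an.NoQ2

def SuperADP (X : Type*) [NormedAddCommGroup X] [NormedSpace ℝ X] : Prop :=
  ∀ x : X, ‖x‖ = 1 → ∀ U : Set (WeakSpace ℝ X), IsOpen U →
    (∃ y : X, ‖y‖ ≤ 1 ∧ toWeakSpace ℝ X y ∈ U) →
      IsLUB {r : ℝ | ∃ y : X, ‖y‖ ≤ 1 ∧ toWeakSpace ℝ X y ∈ U ∧ r = max ‖x + y‖ ‖x - y‖} 2

theorem result (X : Type*) [NormedAddCommGroup X] [NormedSpace ℝ X] [CompleteSpace X] (e : ℕ → X)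
    (hbasis : ∀ x : X, ∃! a : ℕ → ℝ,
      Tendsto (fun n => ∑ i ∈ Finset.range n, a i • e i) atTop (𝓝 x))
    (hunc : ∀ (a s : ℕ → ℝ) (n : ℕ), (∀ i, s i = 1 ∨ s i = -1) →
      ‖∑ i ∈ Finset.range n, (s i * a i) • e i‖ = ‖∑ i ∈ Finset.range n, a i • e i‖) :
    ¬ SuperADP X := by
  intro H
  refine Pool.Agent.H.MP_235f01_an.main e hbasis hunc fun x hx U hU hne r hr => ?_
  obtain ⟨_, ⟨y, y1, y2, rfl⟩, h, -⟩ := (H x hx U hU hne).exists_between hr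
  exact ⟨y, y1, y2, h⟩

end Pool.Agent.Results.MP_235f01_an.NoQ2
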